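import Pool.Agent.helper6.LD.CN
import Pool.Agent.helper97.LD.F0

/-!
# MP_4467b5_nt (density hypothesis): a local density theorem

`Pool.Agent.helper6.LD.zc S` is the number of zeros of the Riemann zeta function in `S`, counted
with multiplicity (a finite sum for all the sets below, which contain finitely many zeros).
`Pool.Agent.helper6.LD.Exposed lam M ρ` says: for some `y`, `τ` with `(y - Im ρ)² ≤ lam M / 4`,
`τ ≤ 1/16` and `log log Im ρ ≤ lam τ log Im ρ`, the closed disc with centre `M + i y` and radius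
`|M + i y - ρ| + τ` contains at most `lam τ log Im ρ` distinct zeros.

The theorem: exposed zeros satisfy the density hypothesis, in every interval `(T, T + H]`,
`T ≥ 0`, `H ≥ 1`, up to a factor `(T + H)^(20 lam log(e/lam))`.
-/

set_option autoImplicit false

open Complex

namespace Pool.Agent.Results.MP_4467b5_nt.LocalDensity

open Pool.Agent.helper6.LD

theorem result (lam M : ℝ) (hlam : 0 < lam) (hlam1 : lam ≤ 1) (hM : 100 / lam ^ 2 ≤ M) :
    ∃ B : ℝ, 0 < B ∧ ∀ σ T H : ℝ, 1 / 2 ≤ σ → σ ≤ 1 → 0 ≤ T → 1 ≤ H →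
      (zc {ρ : ℂ | σ ≤ ρ.re ∧ T < ρ.im ∧ ρ.im ≤ T + H ∧ riemannZeta ρ = 0 ∧ Exposed lam M ρ} : ℝ)
        ≤ B * H ^ (2 * (1 - σ)) * (T + H) ^ (20 * lam * Real.log (Real.exp 1 / lam)) :=
  h97_final hlam hlam1 (fun F S h => zc_union_le F S h) (fun h hb => zc_mono h hb)
    (count_short hlam hlam1 hM)

end Pool.Agent.Results.MP_4467b5_nt.LocalDensity
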