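import Pool.Agent.helper82.T6.All
import Pool.Agent.helper3.T6R.All
import Pool.Agent.helper77.T6R.BA
import Pool.Agent.helper6.RF.FIN
import Pool.Agent.helper60.RF.AllB
import Pool.Agent.helper13.RF.AllA
import Pool.Agent.helper95.RF.AllC

/-!
MP_16912e_nt, partial result (`p = 5`, REAL quadratic fields): THE LOWER BOUND OF THE RIGHT EXPONENT.

For every `ε > 0` there is an `N₀` such that for every `N ≥ N₀`

  `∑_{0 < D < N, D fundamental} (|Cl(ℚ(√D))[5]| - 1) ≥ N ^ (1 - ε)`.

Here `f D` stands for `|Cl(ℚ(√D))[5]|`, exactly as in the frozen statement.  Together with `BoundedAverage`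
(the sum is `O(N)`) this is the order of magnitude of the first moment of the nontrivial 5-torsion of the real
quadratic fields, up to `N ^ ε`.  (For imaginary fields small ideals of order 5 give such bounds; for real
fields the classes of order 5 do not contain small ideals because of the units.)

Proof (sketch).  `φ = (1 + √5) / 2`, `'` the conjugation of `ℚ(√5)`.  The mirror field of `D` is
`F = ℚ(√(-√5 φ D))`, a cyclic CM field of degree 4, with the generator `s` of its Galois group.
(A) Reflection.  If `β ∈ F` satisfies `β^s = β² g⁵`, `(β) = I⁵`, `β ≡ 1 mod 25`, then the fifth root of `β`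
gives an unramified cyclic extension of degree 5 of `ℚ(√D)`; independent `β` give different extensions, and
`|{β mod fifth powers}| ≤ |Cl(ℚ(√D))[5]|` (no class field theory: the norm group of an unramified cyclic
extension of degree 5 has index at least 5 by the ambiguous class number formula, and the densities of the
primes that split in two extensions show that the norm groups are different).
(B) Points.  Every solution of `X² + √5 φ D K² = n² n'`, `X, K, n ∈ ℤ[φ]`, with `n M = φ X' K - X K'`,
`X ≡ n ≡ 1`, `K ≡ 0 mod 25` and without a rational prime `l ∣ n` gives such a `β = θ² θ^s n'³`,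
`θ = X + K w`.
(C) Counting.  For `K = 25 k`, `k` of prime norm `q = N ^ (1/2 - η)`, the points are the
`(s, M)` with `s ≡ Q_k(M) mod q³`, `Q_k` a quadratic form on `ℤ[φ]`; they are counted by Weyl sums; the dual
points are few because an integer divides a resultant which does not depend on `k`.  There are
`≥ N ^ (1 - 7 η / 10)` points.
(D) Multiplicity.  A class `β` with `D = D₀ f²` given contains few points: two of them give an element of `F`
of small norm whose coefficient of `w` is divisible by a large part of `f`; the points with `f` large are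
negligible by `BoundedAverage`.
-/

set_option autoImplicit false

open Classical

namespace Pool.Agent.Results.MP_16912e_nt.RealFields

theorem result :
    ∀ ε : ℝ, 0 < ε → ∃ N₀ : ℕ, ∀ f : ℤ → ℕ,
      (∀ (K : Type) [Field K] [NumberField K], Module.finrank ℚ K = 2 →
        f (NumberField.discr K) =
          Nat.card {x : ClassGroup (NumberField.RingOfIntegers K) // x ^ 5 = 1}) →
      ∀ N : ℕ, N₀ ≤ N →
        (N : ℝ) ^ (1 - ε) ≤
          ∑ D ∈ (Finset.Ioo (0 : ℤ) (N : ℤ)).filter (fun D : ℤ =>
              (D % 4 = 1 ∧ D ≠ 1 ∧ Squarefree D) ∨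
              (∃ m : ℤ, D = 4 * m ∧ (m % 4 = 2 ∨ m % 4 = 3) ∧ Squarefree m)),
            ((f D : ℝ) - 1) := by
  obtain ⟨C, hC⟩ := Pool.Agent.T6R.BA_of Pool.Agent.T6.allUB Pool.Agent.T6R.allUBR
  exact Pool.Agent.RF.REAL_of Pool.Agent.RF.PTS_all
    (Pool.Agent.RF.b_CNT Pool.Agent.RF.a_REFL Pool.Agent.RF.a_MEX)
    (Pool.Agent.RF.b_CNG Pool.Agent.RF.a_REFL Pool.Agent.RF.a_MEX) Pool.Agent.RF.b_GDV
    ⟨C, fun f hf N => (hC f hf N).1⟩

end Pool.Agent.Results.MP_16912e_nt.RealFields
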