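import Pool.Agent.helper27.TD.Final

/-!
MP_16912e_nt, partial result (upper bound for the average, every prime `p ≥ 7`, real and imaginary
quadratic fields).

For every prime `p ≥ 7` and every `ε > 0` there is a constant `C` such that for every `N`

  `∑_{0 < D < N, D fundamental} #Cl(ℚ(√D))[p] ≤ C * N ^ (3/2 - 1/M + ε)` and
  `∑_{-N < D < 0, D fundamental} #Cl(ℚ(√D))[p] ≤ C * N ^ (3/2 - 1/M + ε)`,

where `M = ⌊(4 p²)^(1/3)⌋`.  Here `f D` stands for `#Cl(ℚ(√D))[p]`, exactly as in the frozen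
statement.

Proof.  For primes `q₁ ≠ q₂` in `(Z, 4 Z]` one counts the `D`, `X < |D| ≤ 2 X`, for which
`(𝔮₁ / 𝔮₂)^p` is principal, that is `x² = D w² + 4 (q₁ q₂)^p` with `|D| w² ≤ 4 (q₁ q₂)^p`.  Write
`(q₁ q₂)^p = L J²` with `L = q₁^l₁ q₂^l₂`, `l₁ + l₂ = 2 (M - 1)`.  Two short elements give integers
`k, g, n, u, v` with `u² - L v² = D k²`, `g² - L n² = -k w` and
`v (g² + L n²) - 2 u g n = 2 J k²`, of sizes `k² ≪ L`, `u² ≪ L X`, `v² ≪ X`, `g² ≪ L J`, `n² ≪ J`.
Fix `k`, the lattices modulo `k` and modulo `k²` of `(g, n)` and `(u, v)` and the sizes of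
`g ± √L n`, `u ± √L v`.  The determinant of the `2 (b + 1)` monomials of bidegree `(1, b)` in
`(g, n)`, `(u, v)` at `2 (b + 1)` points with the same data is divisible by a power of `k` and, as
`n / g` is modulo `q^j` a power series in `v / u` (the generating series of the Catalan numbers) up
to one unknown, by high powers of `q₁` and `q₂`; it is small because the points are close to one
of four points of the real locus.  So it vanishes, `(g : n) = (A : B)(u / v)` for all the points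
with the same data, and `(u, v)` solves one of few Thue equations of degree `2 b + 1`, whose form is
not a power of a linear form as `2 b + 1` does not divide `p`.  This gives `Z^(M - 1 + ε)` values of
`D` for `X` about `Z^M`.
-/

set_option autoImplicit false

open Classical

namespace Pool.Agent.Results.MP_16912e_nt.TorsionAverage

theorem result :
    ∀ p : ℕ, p.Prime → 7 ≤ p → ∀ ε : ℝ, 0 < ε → ∃ C : ℝ, ∀ f : ℤ → ℕ,
      (∀ (K : Type) [Field K] [NumberField K], Module.finrank ℚ K = 2 →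
        f (NumberField.discr K) =
          Nat.card {x : ClassGroup (NumberField.RingOfIntegers K) // x ^ p = 1}) →
      ∀ N : ℕ,
        (∑ D ∈ (Finset.Ioo (0 : ℤ) (N : ℤ)).filter (fun D : ℤ =>
              (D % 4 = 1 ∧ D ≠ 1 ∧ Squarefree D) ∨
              (∃ m : ℤ, D = 4 * m ∧ (m % 4 = 2 ∨ m % 4 = 3) ∧ Squarefree m)),
            (f D : ℝ) ≤
          C * (N : ℝ) ^ (3 / 2 - 1 / (⌊(4 * (p : ℝ) ^ 2) ^ (1 / 3 : ℝ)⌋₊ : ℝ) + ε)) ∧
        (∑ D ∈ (Finset.Ioo (-(N : ℤ)) (0 : ℤ)).filter (fun D : ℤ =>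
              (D % 4 = 1 ∧ D ≠ 1 ∧ Squarefree D) ∨
              (∃ m : ℤ, D = 4 * m ∧ (m % 4 = 2 ∨ m % 4 = 3) ∧ Squarefree m)),
            (f D : ℝ) ≤
          C * (N : ℝ) ^ (3 / 2 - 1 / (⌊(4 * (p : ℝ) ^ 2) ^ (1 / 3 : ℝ)⌋₊ : ℝ) + ε)) := by
  intro p hp h7 ε hε
  obtain ⟨C, hC⟩ := Pool.Agent.helper27.TD.all_floor p hp h7 ε hε
  refine ⟨C, fun f hf N => ?_⟩
  obtain ⟨h1, h2⟩ := hC f hf N
  refine ⟨le_trans (le_of_eq ?_) h1, le_trans (le_of_eq ?_) h2⟩
  · refine Finset.sum_congr ?_ fun _ _ => rfl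
    exact Finset.filter_congr fun D _ => Iff.rfl
  · refine Finset.sum_congr ?_ fun _ _ => rfl
    exact Finset.filter_congr fun D _ => Iff.rfl

end Pool.Agent.Results.MP_16912e_nt.TorsionAverage
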